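import Pool.Agent.H13.HN.Disc
import Pool.Agent.H57.HN.PFJ
import Pool.Agent.H2.HN.DetJ
import Pool.Agent.H85.HN.RKJ
import Pool.Agent.H73.HK.PF
import Pool.Agent.H73.HK.PT

/-!
# The interpolation determinant with derivatives at a point of a residue disc (module ALGJ)

If a determinant of Taylor coefficients of products of translates of normalised coordinates is not
zero at some complex point, it is not zero at an algebraic point `x` of the residue disc, of small
height, and the product formula gives an inequality at `x` (`alg_jet`).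
-/

namespace Pool.Agent.H13.HN

open Height Height.AdmissibleAbsValues
open Pool.Agent.H79.HN (Bdd fac ord pf_jets)

theorem ord_eq_degree {κ : ℕ} (τ : Fin κ →₀ ℕ) : ord τ = τ.degree := by
  rw [ord, Finsupp.degree_eq_sum]

/-- local bounds given by the local maxima of the coordinates of a vector -/
theorem bdd_of_vector {K : Type} [Field K] [NumberField K] {κ k k' : ℕ}
    (φ : Fin (k + 1) → MvPowerSeries (Fin κ) K) (e : Fin (k' + 1) → K) (he : e 0 = 1)
    (h1 : ∀ j τ, ∀ v ∈ nonarchAbsVal (K := K),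
      v ((∏ i, (τ i).factorial : ℕ) * MvPowerSeries.coeff τ (φ j)) ≤
        (⨆ i, v (e i)) ^ (τ.degree + 1))
    (h2 : ∀ j τ, ∀ v ∈ archAbsVal (K := K),
      v (MvPowerSeries.coeff τ (φ j)) ≤ (⨆ i, v (e i)) ^ (τ.degree + 1)) :
    Bdd φ (logHeight e) := by
  have hne : e ≠ 0 := fun h => by simp [h] at he
  have hone : ∀ v : AbsoluteValue K ℝ, 1 ≤ ⨆ i, v (e i) := by
    intro v
    have h := Pool.Agent.H73.HK.pf_le_iSup v e 0
    rwa [he, map_one] at h
  have hfin := Pool.Agent.H73.HK.pf_fin hne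
  refine ⟨fun u => ⨆ i, u (e i), fun u => ⨆ i, u.val (e i), ?_, ?_, hfin, ?_⟩
  · intro u hu
    refine ⟨hone u, fun j τ => ?_⟩
    rw [ord_eq_degree]
    exact h2 j τ u hu
  · intro u
    refine ⟨hone u.val, fun j τ => ?_⟩
    rw [ord_eq_degree]
    exact h1 j τ u.val u.property
  · have hpos : ∀ v : AbsoluteValue K ℝ, 0 < ⨆ i, v (e i) := fun v =>
      lt_of_lt_of_le one_pos (hone v)
    have hne1 : ∀ t ∈ (archAbsVal (K := K)).map fun v => ⨆ i, v (e i), t ≠ 0 := by
      intro t ht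
      obtain ⟨v, _, rfl⟩ := Multiset.mem_map.1 ht
      exact (hpos v).ne'
    have hH : mulHeight e ≠ 0 := mulHeight_ne_zero e
    rw [mulHeight_eq hne] at hH
    rw [logHeight, mulHeight_eq hne, Real.log_mul (left_ne_zero_of_mul hH)
      (right_ne_zero_of_mul hH), Real.log_multiset_prod hne1, Multiset.map_map,
      Real.log_finprod fun v : nonarchAbsVal (K := K) => hpos v.val]
    exact le_rfl

/-- the total weight of a number field is its degree -/
theorem totalWeight_eq (K : Type*) [Field K] [NumberField K] :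
    totalWeight K = Module.finrank ℚ K := by
  have h := NumberField.sum_archAbsVal_eq (K := K) (fun _ => (1 : ℕ))
  simp only [Multiset.map_const', Multiset.sum_replicate, smul_eq_mul, mul_one] at h
  rw [totalWeight, h, NumberField.InfinitePlace.sum_mult_eq]

section Disc

variable {Lam : Type} [AddCommGroup Lam] {q : Lam → Lam → ℤ} {NS Ample : Set Lam} {P : Type}
  {SecA : Submodule ℂ (P → ℂ)} {n r kap : ℕ} {act : (Fin r → ℤ) → P → P}
  {pull : (Fin r → ℤ) → Lam → Lam} {A : Lam} {Good : Set P}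
  {JA : P → (P → ℂ) → MvPowerSeries (Fin kap) ℂ} {p : ℕ} [Fact p.Prime]

/-- the determinant over `K x` is not zero if the one over `ℂ` is not -/
theorem det_ne_zero_of_complex (Dd : Disc q NS Ample SecA n act pull A Good JA p) (x : Dd.D)
    {N L : ℕ} (nu : Fin N → Fin L → (Fin r → ℤ)) (tau : Fin N → (Fin kap →₀ ℕ))
    (J : Fin N → Fin L → Fin (Dd.k + 1))
    (h : Matrix.det (Matrix.of fun i j => MvPowerSeries.coeff (tau i)
      (∏ s, nc JA Dd.a (act (nu i s) (Dd.pt x)) (J j s))) ≠ 0) :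
    Matrix.det (Matrix.of fun i j => MvPowerSeries.coeff (tau i)
      (∏ s, Dd.co x (nu i s) (J j s))) ≠ 0 := by
  intro h0
  apply h
  have h1 : (Matrix.of fun i j => MvPowerSeries.coeff (tau i)
      (∏ s, nc JA Dd.a (act (nu i s) (Dd.pt x)) (J j s))) =
      (Dd.emb x).mapMatrix (Matrix.of fun i j => MvPowerSeries.coeff (tau i)
        (∏ s, Dd.co x (nu i s) (J j s))) := by
    ext i j
    simp only [Matrix.of_apply, RingHom.mapMatrix_apply, Matrix.map_apply,
      ← MvPowerSeries.coeff_map, map_prod, Dd.co_val]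
  rw [h1, ← RingHom.map_det, h0, map_zero]

/-- **The inequality at one point.** -/
theorem det_point (Dd : Disc q NS Ample SecA n act pull A Good JA p) (x : Dd.D) {N L : ℕ}
    (rows : Fin N → (Fin r → ℤ)) (l : Fin L → (Fin r → ℤ)) (tau : Fin N → (Fin kap →₀ ℕ))
    (J : Fin N → Fin L → Fin (Dd.k + 1))
    (h : Matrix.det (Matrix.of fun i j => MvPowerSeries.coeff (tau i)
      (∏ s, nc JA Dd.a (act (l s + rows i) (Dd.pt x)) (J j s))) ≠ 0) (D : ℕ) :
    Real.log p * ((D * (N - D ^ n) : ℕ) : ℝ) ≤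
      Dd.M * Real.log p * ∑ i, ((tau i).degree : ℝ) +
      ∑ i, (∑ s, logHeight (Dd.e x (l s + rows i)) +
        ((tau i).degree : ℝ) * ∑ u ∈ Finset.univ.image l, logHeight (Dd.e x (u + rows i))) +
      Dd.d * (Real.log (N.factorial) +
        ∑ i, (Real.log (fac (tau i)) + ((tau i).degree : ℝ) * Real.log (L + 1))) := by
  classical
  obtain ⟨w, hw, hwx⟩ := Dd.place x
  have hp : (0 : ℝ) < p := by exact_mod_cast (Fact.out : p.Prime).pos
  have h1 := det_ne_zero_of_complex Dd x (fun i s => l s + rows i) tau J h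
  have h2 := Pool.Agent.H2.HN.norm_detj Dd x l rows tau J D n
    (Pool.Agent.H85.HN.dl_le Dd x)
  have hint : ∀ t : ℕ, w (t : Dd.K x) ≤ 1 := by
    intro t
    rw [hwx, map_natCast]
    exact_mod_cast Padic.norm_int_le_one (p := p) (t : ℤ)
  have hdet : w (Matrix.det (Matrix.of fun i j => (fac (tau i) : Dd.K x) *
      MvPowerSeries.coeff (tau i) (∏ s, Dd.co x (l s + rows i) (J j s)))) ≤
      (p : ℝ) ^ (Dd.M * ∑ i, (tau i).degree) * ((p : ℝ) ^ (D * (N - D ^ n)))⁻¹ := by
    have h3 : (Matrix.of fun i j => (fac (tau i) : Dd.K x) *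
        MvPowerSeries.coeff (tau i) (∏ s, Dd.co x (l s + rows i) (J j s))) =
        Matrix.of fun i j => (fac (tau i) : Dd.K x) * (Matrix.of fun i j =>
          MvPowerSeries.coeff (tau i) (∏ s, Dd.co x (l s + rows i) (J j s))) i j := rfl
    rw [h3, Matrix.det_mul_column, map_mul, map_prod, hwx (Matrix.det _)]
    refine le_trans (mul_le_of_le_one_left (norm_nonneg _) ?_) h2
    exact Finset.prod_le_one (fun i _ => w.nonneg _) fun i _ => hint _
  have hB0 : (0 : ℝ) < (p : ℝ) ^ (Dd.M * ∑ i, (tau i).degree) *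
      ((p : ℝ) ^ (D * (N - D ^ n)))⁻¹ := by positivity
  have h6 := pf_jets l (fun i u => Dd.co x (u + rows i)) J tau
    (fun i u => logHeight (Dd.e x (u + rows i)))
    (fun i s => bdd_of_vector _ _ (Dd.e_zero x _) (fun j τ v hv => Dd.cost_fin x _ j τ v hv)
      fun j τ v hv => Dd.cost_arch x _ j τ v hv) h1 hw hB0 hdet
  rw [Real.log_mul (by positivity) (by positivity), Real.log_inv, Real.log_pow, Real.log_pow] at h6
  simp only [ord_eq_degree] at h6
  have h7 : (totalWeight (Dd.K x) : ℝ) * (Real.log (N.factorial) +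
        ∑ i, (Real.log (fac (tau i)) + ((tau i).degree : ℝ) * Real.log (L + 1))) ≤
      Dd.d * (Real.log (N.factorial) +
        ∑ i, (Real.log (fac (tau i)) + ((tau i).degree : ℝ) * Real.log (L + 1))) := by
    refine mul_le_mul_of_nonneg_right ?_ ?_
    · rw [totalWeight_eq]
      exact_mod_cast Dd.deg x
    · refine add_nonneg (Real.log_natCast_nonneg _) (Finset.sum_nonneg fun i _ =>
        add_nonneg (Real.log_natCast_nonneg _) (mul_nonneg (Nat.cast_nonneg _) ?_))
      have h8 : (0 : ℝ) ≤ (L : ℝ) := Nat.cast_nonneg _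
      exact Real.log_nonneg (by linarith)
  have h9 : ((Dd.M * ∑ i, (tau i).degree : ℕ) : ℝ) * Real.log p =
      Dd.M * Real.log p * ∑ i, ((tau i).degree : ℝ) := by
    push_cast
    ring
  rw [h9] at h6
  linarith

/-- **Module ALGJ**. -/
theorem alg_jet (Dd : Disc q NS Ample SecA n act pull A Good JA p)
    (hq : ∀ m, 0 ≤ q (pull m A) A) :
    ∃ C : ℝ, 0 < C ∧ ∀ {N L T : ℕ} (rows : Fin N → (Fin r → ℤ)) (l : Fin L → (Fin r → ℤ))
      (tau : Fin N → (Fin kap →₀ ℕ)) (J : Fin N → Fin L → Fin (Dd.k + 1)),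
      (∀ i, (tau i).degree ≤ T) →
      (∃ y ∈ Good, (∀ i s, Dd.a 0 (act (l s + rows i) y) ≠ 0) ∧
        Matrix.det (Matrix.of fun i j => MvPowerSeries.coeff (tau i)
          (∏ s, nc JA Dd.a (act (l s + rows i) y) (J j s))) ≠ 0) →
      ∃ x : Dd.D, (∀ D : ℕ, Real.log p * ((D * (N - D ^ n) : ℕ) : ℝ) ≤
          Dd.M * Real.log p * ∑ i, ((tau i).degree : ℝ) +
          ∑ i, (∑ s, logHeight (Dd.e x (l s + rows i)) +
            ((tau i).degree : ℝ) *
              ∑ u ∈ Finset.univ.image l, logHeight (Dd.e x (u + rows i))) +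
          Dd.d * (Real.log (N.factorial) +
            ∑ i, (Real.log (fac (tau i)) + ((tau i).degree : ℝ) * Real.log (L + 1)))) ∧
        logHeight (fun j => MvPowerSeries.constantCoeff (Dd.co x 0 j)) ≤
          C * (1 + Real.log (1 + (1 + T) * ∑ i, ∑ s, (q (pull (l s + rows i) A) A : ℝ))) := by
  classical
  obtain ⟨C₁, hC₁⟩ := Dd.hensel
  obtain ⟨C₀, hC₀, hpush⟩ := Dd.push
  have hp0 : 0 < Dd.p0 := Dd.p0_pos
  have hpR : (1 : ℝ) ≤ Dd.p0 := by exact_mod_cast hp0
  set g : ℝ := (Dd.G0.totalDegree : ℝ) with hg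
  have hg0 : 0 ≤ g := Nat.cast_nonneg _
  refine ⟨(1 + |C₁|) * (1 + Real.log ((2 * n + 1) * Dd.p0) + Real.log (1 + C₀ + g)), ?_, ?_⟩
  · have h1 : 0 ≤ Real.log ((2 * n + 1) * Dd.p0) := by
      apply Real.log_nonneg
      have : (0 : ℝ) ≤ 2 * n := by positivity
      nlinarith
    have h2 : 0 ≤ Real.log (1 + C₀ + g) := Real.log_nonneg (by linarith)
    have h3 := abs_nonneg C₁
    positivity
  intro N L T rows l tau J hT hne
  obtain ⟨G, hG, hdeg, hGx⟩ := hpush N L T (fun i s => l s + rows i) tau J hT hne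
  have hGG : G * Dd.G0 ≠ 0 := mul_ne_zero hG Dd.G0_ne
  have hdeg2 : (G * Dd.G0).totalDegree ≤ G.totalDegree + Dd.G0.totalDegree :=
    MvPolynomial.totalDegree_mul _ _
  obtain ⟨y, hy0, hyb, hyG⟩ := Pool.Agent.H73.HK.grid_point hp0 (G * Dd.G0) hGG hdeg2 Dd.y0
  rw [MvPolynomial.eval_mul] at hyG
  obtain ⟨x, hfx, hht⟩ := hC₁ y hy0 (right_ne_zero_of_mul hyG)
  refine ⟨x, det_point Dd x rows l tau J ?_, ?_⟩
  · apply hGx x
    rw [hfx]
    exact left_ne_zero_of_mul hyG
  · set S : ℝ := (1 + T) * ∑ i, ∑ s, (q (pull (l s + rows i) A) A : ℝ) with hS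
    have hS0 : 0 ≤ S := mul_nonneg (by positivity) (Finset.sum_nonneg fun i _ =>
      Finset.sum_nonneg fun s _ => by exact_mod_cast hq (l s + rows i))
    have hdeg3 : (G.totalDegree : ℝ) ≤ C₀ * S := by
      rw [hS, ← mul_assoc]
      exact hdeg
    set d₀ : ℝ := ((G.totalDegree + Dd.G0.totalDegree : ℕ) : ℝ) with hd₀
    have hd1 : d₀ ≤ C₀ * S + g := by
      rw [hd₀, Nat.cast_add]
      linarith
    have hd2 : 0 ≤ d₀ := Nat.cast_nonneg _
    have h1 : ∑ i, |(y i : ℝ)| ≤ (2 * n) * (Dd.p0 * (d₀ + 1)) := by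
      calc ∑ i, |(y i : ℝ)| ≤ ∑ _i : Fin (2 * n), (Dd.p0 : ℝ) * (d₀ + 1) := by
            refine Finset.sum_le_sum fun i _ => ?_
            obtain ⟨h2, h3⟩ := hyb i
            have h4 : (0 : ℝ) ≤ (y i : ℝ) := by exact_mod_cast h2
            rw [abs_of_nonneg h4]
            have h5 : (y i : ℝ) < (Dd.p0 : ℝ) * (d₀ + 1) := by
              rw [hd₀]
              exact_mod_cast h3
            exact h5.le
        _ = (2 * n) * (Dd.p0 * (d₀ + 1)) := by simp
    have h6 : (1 : ℝ) + ∑ i, |(y i : ℝ)| ≤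
        ((2 * n + 1) * Dd.p0) * ((1 + C₀ + g) * (1 + S)) := by
      have h7 : d₀ + 1 ≤ (1 + C₀ + g) * (1 + S) := by nlinarith
      have h8 : (1 : ℝ) ≤ Dd.p0 * (d₀ + 1) := by nlinarith
      have h10 : (Dd.p0 : ℝ) * (d₀ + 1) ≤ Dd.p0 * ((1 + C₀ + g) * (1 + S)) :=
        mul_le_mul_of_nonneg_left h7 (by positivity)
      have h11 : (0 : ℝ) ≤ 2 * n := by positivity
      calc (1 : ℝ) + ∑ i, |(y i : ℝ)| ≤ Dd.p0 * (d₀ + 1) + (2 * n) * (Dd.p0 * (d₀ + 1)) :=
            add_le_add h8 h1
        _ = (2 * n + 1) * (Dd.p0 * (d₀ + 1)) := by ring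
        _ ≤ (2 * n + 1) * (Dd.p0 * ((1 + C₀ + g) * (1 + S))) :=
            mul_le_mul_of_nonneg_left h10 (by positivity)
        _ = _ := by ring
    have h11 : (0 : ℝ) ≤ ∑ i, |(y i : ℝ)| := Finset.sum_nonneg fun i _ => abs_nonneg _
    have h12 : Real.log (1 + ∑ i, |(y i : ℝ)|)
        ≤ Real.log ((2 * n + 1) * Dd.p0) + Real.log (1 + C₀ + g) + Real.log (1 + S) := by
      have h13 := Real.log_le_log (by linarith) h6
      have ha : Real.log ((2 * n + 1) * Dd.p0 * ((1 + C₀ + g) * (1 + S))) =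
          Real.log ((2 * n + 1) * Dd.p0) + Real.log ((1 + C₀ + g) * (1 + S)) :=
        Real.log_mul (by positivity) (by positivity)
      have hb : Real.log ((1 + C₀ + g) * (1 + S)) = Real.log (1 + C₀ + g) + Real.log (1 + S) :=
        Real.log_mul (by positivity) (by positivity)
      rw [ha, hb] at h13
      linarith
    have h14 : 0 ≤ Real.log (1 + ∑ i, |(y i : ℝ)|) := Real.log_nonneg (by linarith)
    have h15 : 0 ≤ Real.log (1 + S) := Real.log_nonneg (by linarith)
    have h16 : 0 ≤ Real.log ((2 * n + 1) * Dd.p0) := by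
      apply Real.log_nonneg
      have : (0 : ℝ) ≤ 2 * n := by positivity
      nlinarith
    have h17 : 0 ≤ Real.log (1 + C₀ + g) := Real.log_nonneg (by linarith)
    calc logHeight (fun j => MvPowerSeries.constantCoeff (Dd.co x 0 j))
        ≤ C₁ * (1 + Real.log (1 + ∑ i, |(y i : ℝ)|)) := hht
      _ ≤ (1 + |C₁|) * (1 + Real.log (1 + ∑ i, |(y i : ℝ)|)) :=
          mul_le_mul_of_nonneg_right (by linarith [le_abs_self C₁]) (by linarith)
      _ ≤ (1 + |C₁|) * ((1 + Real.log ((2 * n + 1) * Dd.p0) + Real.log (1 + C₀ + g)) *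
            (1 + Real.log (1 + S))) := by
          apply mul_le_mul_of_nonneg_left _ (by positivity)
          nlinarith [mul_nonneg h16 h15, mul_nonneg h17 h15]
      _ = _ := by ring

theorem log_fac_le {κ T : ℕ} (τ : Fin κ →₀ ℕ) (h : τ.degree ≤ T) :
    Real.log (fac τ) ≤ T * Real.log (T + 1) := by
  have h1 : fac τ ≤ (T + 1) ^ τ.degree := by
    rw [fac, Finsupp.degree_eq_sum, ← Finset.prod_pow_eq_pow_sum]
    refine Finset.prod_le_prod' fun a _ => ?_
    refine (Nat.factorial_le_pow (τ a)).trans (Nat.pow_le_pow_left ?_ _)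
    have h2 : τ a ≤ τ.degree := by
      rw [Finsupp.degree_eq_sum]
      exact Finset.single_le_sum (f := fun a => τ a) (fun _ _ => Nat.zero_le _)
        (Finset.mem_univ a)
    omega
  have h2 : fac τ ≤ (T + 1) ^ T := h1.trans (Nat.pow_le_pow_right (Nat.succ_pos T) h)
  have h3 : (0 : ℝ) < fac τ := by
    rw [fac]
    exact_mod_cast Finset.prod_pos fun a _ => Nat.factorial_pos _
  calc Real.log (fac τ) ≤ Real.log (((T + 1) ^ T : ℕ) : ℝ) :=
        Real.log_le_log h3 (by exact_mod_cast h2)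
    _ = T * Real.log (T + 1) := by
        push_cast
        rw [Real.log_pow]

/-- **Module ALGJ**, in terms of the heights of the points only. -/
theorem alg_jet' (Dd : Disc q NS Ample SecA n act pull A Good JA p)
    (hq : ∀ m, 0 ≤ q (pull m A) A) :
    ∃ C : ℝ, 0 < C ∧ ∀ {N L T : ℕ} (rows : Fin N → (Fin r → ℤ)) (l : Fin L → (Fin r → ℤ))
      (tau : Fin N → (Fin kap →₀ ℕ)) (J : Fin N → Fin L → Fin (Dd.k + 1)),
      (∀ i, (tau i).degree ≤ T) →
      (∃ y ∈ Good, (∀ i s, Dd.a 0 (act (l s + rows i) y) ≠ 0) ∧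
        Matrix.det (Matrix.of fun i j => MvPowerSeries.coeff (tau i)
          (∏ s, nc JA Dd.a (act (l s + rows i) y) (J j s))) ≠ 0) →
      ∃ x : Dd.D, (∀ D : ℕ, Real.log p * ((D * (N - D ^ n) : ℕ) : ℝ) ≤
          C * ∑ i, ∑ s, (1 + logHeight fun j =>
            MvPowerSeries.constantCoeff (Dd.co x (l s + rows i) j)) +
          C * T * ∑ i, ∑ u ∈ Finset.univ.image l, (1 + logHeight fun j =>
            MvPowerSeries.constantCoeff (Dd.co x (u + rows i) j)) +
          Dd.d * Real.log (N.factorial) +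
          C * N * T * (1 + Real.log (T + 1) + Real.log (L + 1))) ∧
        logHeight (fun j => MvPowerSeries.constantCoeff (Dd.co x 0 j)) ≤
          C * (1 + Real.log (1 + (1 + T) * ∑ i, ∑ s, (q (pull (l s + rows i) A) A : ℝ))) := by
  classical
  obtain ⟨C₁, hC₁, h₁⟩ := alg_jet Dd hq
  obtain ⟨C₂, h₂⟩ := Dd.cost_height
  have hlp : 0 ≤ Real.log p := Real.log_natCast_nonneg _
  set C : ℝ := C₁ + |C₂| + (Dd.M * Real.log p + Dd.d) with hC
  have hMd : 0 ≤ Dd.M * Real.log p + (Dd.d : ℝ) := by positivity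
  have hCC₁ : C₁ ≤ C := by
    have := abs_nonneg C₂
    rw [hC]
    linarith
  have hCC₂ : |C₂| ≤ C := by
    rw [hC]
    linarith
  have hCC₃ : Dd.M * Real.log p + Dd.d ≤ C := by
    have := abs_nonneg C₂
    rw [hC]
    linarith
  have hC0 : 0 < C := lt_of_lt_of_le hC₁ hCC₁
  have hh : ∀ x m, logHeight (Dd.e x m) ≤ C * (1 + logHeight fun j =>
      MvPowerSeries.constantCoeff (Dd.co x m j)) := by
    intro x m
    have h0 : 0 ≤ logHeight fun j => MvPowerSeries.constantCoeff (Dd.co x m j) :=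
      logHeight_nonneg _
    refine (h₂ x m).trans (mul_le_mul_of_nonneg_right ((le_abs_self _).trans hCC₂) (by linarith))
  refine ⟨C, hC0, fun {N L T} rows l tau J hT hne => ?_⟩
  obtain ⟨x, hx, hx0⟩ := h₁ rows l tau J hT hne
  refine ⟨x, fun D => (hx D).trans ?_, hx0.trans ?_⟩
  · have hL0 : 0 ≤ Real.log ((L : ℝ) + 1) := by
      apply Real.log_nonneg
      have : (0 : ℝ) ≤ L := Nat.cast_nonneg _
      linarith
    have hT0 : 0 ≤ Real.log ((T : ℝ) + 1) := by
      apply Real.log_nonneg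
      have : (0 : ℝ) ≤ T := Nat.cast_nonneg _
      linarith
    have hdeg : ∀ i, ((tau i).degree : ℝ) ≤ T := fun i => by exact_mod_cast hT i
    have e1 : ∑ i, ((tau i).degree : ℝ) ≤ N * T := by
      calc ∑ i, ((tau i).degree : ℝ) ≤ ∑ _i : Fin N, (T : ℝ) :=
            Finset.sum_le_sum fun i _ => hdeg i
        _ = N * T := by simp
    have e2 : ∑ i, (∑ s, logHeight (Dd.e x (l s + rows i)) + ((tau i).degree : ℝ) *
          ∑ u ∈ Finset.univ.image l, logHeight (Dd.e x (u + rows i))) ≤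
        C * ∑ i, ∑ s, (1 + logHeight fun j =>
            MvPowerSeries.constantCoeff (Dd.co x (l s + rows i) j)) +
          C * T * ∑ i, ∑ u ∈ Finset.univ.image l, (1 + logHeight fun j =>
            MvPowerSeries.constantCoeff (Dd.co x (u + rows i) j)) := by
      rw [Finset.mul_sum, Finset.mul_sum, ← Finset.sum_add_distrib]
      refine Finset.sum_le_sum fun i _ => add_le_add ?_ ?_
      · rw [Finset.mul_sum]
        exact Finset.sum_le_sum fun s _ => hh x _
      · have e3 : ∑ u ∈ Finset.univ.image l, logHeight (Dd.e x (u + rows i)) ≤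
            C * ∑ u ∈ Finset.univ.image l, (1 + logHeight fun j =>
              MvPowerSeries.constantCoeff (Dd.co x (u + rows i) j)) := by
          rw [Finset.mul_sum]
          exact Finset.sum_le_sum fun u _ => hh x _
        have e4 : 0 ≤ ∑ u ∈ Finset.univ.image l, logHeight (Dd.e x (u + rows i)) :=
          Finset.sum_nonneg fun u _ => logHeight_nonneg _
        calc ((tau i).degree : ℝ) * ∑ u ∈ Finset.univ.image l, logHeight (Dd.e x (u + rows i))
            ≤ T * ∑ u ∈ Finset.univ.image l, logHeight (Dd.e x (u + rows i)) :=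
              mul_le_mul_of_nonneg_right (hdeg i) e4
          _ ≤ T * (C * ∑ u ∈ Finset.univ.image l, (1 + logHeight fun j =>
                MvPowerSeries.constantCoeff (Dd.co x (u + rows i) j))) :=
              mul_le_mul_of_nonneg_left e3 (Nat.cast_nonneg _)
          _ = _ := by ring
    have e5 : ∑ i, (Real.log (fac (tau i)) + ((tau i).degree : ℝ) * Real.log (L + 1)) ≤
        N * T * (1 + Real.log (T + 1) + Real.log (L + 1)) := by
      calc ∑ i, (Real.log (fac (tau i)) + ((tau i).degree : ℝ) * Real.log (L + 1))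
          ≤ ∑ _i : Fin N, (T * (1 + Real.log (T + 1) + Real.log (L + 1)) : ℝ) := by
            refine Finset.sum_le_sum fun i _ => ?_
            have e6 := log_fac_le (tau i) (hT i)
            have e7 := mul_le_mul_of_nonneg_right (hdeg i) hL0
            have e8 : (0 : ℝ) ≤ T := Nat.cast_nonneg _
            nlinarith
        _ = N * T * (1 + Real.log (T + 1) + Real.log (L + 1)) := by
            simp
            ring
    have e9 : Dd.M * Real.log p * ∑ i, ((tau i).degree : ℝ) +
        Dd.d * ∑ i, (Real.log (fac (tau i)) + ((tau i).degree : ℝ) * Real.log (L + 1)) ≤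
        C * N * T * (1 + Real.log (T + 1) + Real.log (L + 1)) := by
      set S : ℝ := N * T * (1 + Real.log (T + 1) + Real.log (L + 1)) with hS
      have e10 : (0 : ℝ) ≤ N * T := by positivity
      have e11 : (N : ℝ) * T ≤ S := by
        rw [hS]
        nlinarith [mul_nonneg e10 hT0, mul_nonneg e10 hL0]
      have e12 : Dd.M * Real.log p * ∑ i, ((tau i).degree : ℝ) ≤ Dd.M * Real.log p * S :=
        mul_le_mul_of_nonneg_left (e1.trans e11) (by positivity)
      have e13 : Dd.d * ∑ i, (Real.log (fac (tau i)) + ((tau i).degree : ℝ) * Real.log (L + 1)) ≤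
          Dd.d * S := mul_le_mul_of_nonneg_left e5 (Nat.cast_nonneg _)
      have e14 : (Dd.M * Real.log p + Dd.d) * S ≤ C * S :=
        mul_le_mul_of_nonneg_right hCC₃ (e10.trans e11)
      calc _ ≤ Dd.M * Real.log p * S + Dd.d * S := add_le_add e12 e13
        _ = (Dd.M * Real.log p + Dd.d) * S := by ring
        _ ≤ C * S := e14
        _ = _ := by rw [hS]; ring
    rw [mul_add]
    linarith
  · refine mul_le_mul_of_nonneg_right hCC₁ ?_
    have h3 : (0 : ℝ) ≤ (1 + T) * ∑ i, ∑ s, (q (pull (l s + rows i) A) A : ℝ) :=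
      mul_nonneg (by positivity) (Finset.sum_nonneg fun i _ =>
        Finset.sum_nonneg fun s _ => by exact_mod_cast hq (l s + rows i))
    have := Real.log_nonneg (show (1 : ℝ) ≤ 1 + (1 + T) * ∑ i, ∑ s,
      (q (pull (l s + rows i) A) A : ℝ) by linarith)
    linarith

end Disc

end Pool.Agent.H13.HN
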