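import Mathlib

/-!
# Hyperkaehler manifolds of dimension `2 n`: the arithmetic part

`Y` is a projective hyperkaehler manifold of dimension `2 n` with a group `Z^r` of automorphisms,
`A` a very ample class.  If the Iitaka dimension of the parabolic class `L` is `kap >= 1`, the
Hamiltonian vector fields `X_1, .., X_kap` of `kap` independent rational functions (quotients of
sections of a multiple of `L`) are rational, commute with each other and with the group, and are
regular on the open set `Good`.  The Taylor series in `t_1, .., t_kap` along `exp(t X) y` of a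
section at a point `y` of `Good` is its JET at `y`; jets are elements of
`MvPowerSeries (Fin kap) _`.  (`kap = 0`: there are no fields, a jet is a value.)
-/

namespace Pool.Agent.H13.HN

open scoped BigOperators

/-- The jets at `y` of the normalised coordinates `a_j / a_0`; `JA y s` is the jet of the section
`s` of `A`. -/
noncomputable def nc {P : Type} {kap k : ℕ} (JA : P → (P → ℂ) → MvPowerSeries (Fin kap) ℂ)
    (a : Fin (k + 1) → P → ℂ) (y : P) (j : Fin (k + 1)) : MvPowerSeries (Fin kap) ℂ :=
  JA y (a j) * (JA y (a 0))⁻¹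

/-- The series `p (n P1 + t P2)_b` in the variables `t`, for the linear map given by `P1, P2`. -/
noncomputable def lin {p : ℕ} [Fact p.Prime] {r kap dl : ℕ} (P1 : Fin r → Fin dl → ℤ_[p])
    (P2 : Fin kap → Fin dl → ℤ_[p]) (n : Fin r → ℤ) (b : Fin dl) :
    MvPowerSeries (Fin kap) ℤ_[p] :=
  MvPowerSeries.C ((p : ℤ_[p]) * ∑ i, (n i : ℤ_[p]) * P1 i b) +
    ∑ i, MvPowerSeries.C ((p : ℤ_[p]) * P2 i b) * MvPowerSeries.X i

/-- the span of the functions `a j` is `V`. -/
abbrev Spans {P : Type} {k : ℕ} (a : Fin (k + 1) → P → ℂ) (V : Submodule ℂ (P → ℂ)) : Prop :=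
  Submodule.span ℂ (Set.range a) = V

/-- `w` is a normalised finite place of the number field `K`. -/
abbrev FinPl {K : Type} [Field K] [NumberField K] (w : AbsoluteValue K ℝ) : Prop :=
  w ∈ Height.AdmissibleAbsValues.nonarchAbsVal (K := K)

/-- `w` is a normalised infinite place of the number field `K`. -/
abbrev InfPl {K : Type} [Field K] [NumberField K] (w : AbsoluteValue K ℝ) : Prop :=
  w ∈ Height.AdmissibleAbsValues.archAbsVal (K := K)

/-- the logarithmic height of the vector `e`, relative to `K`. -/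
noncomputable abbrev ht {K : Type} [Field K] [NumberField K] {k : ℕ} (e : Fin (k + 1) → K) : ℝ :=
  Height.logHeight e

/-- the height of the vector of the constant terms. -/
noncomputable abbrev ht0 {K : Type} [Field K] [NumberField K] {kap k : ℕ}
    (f : Fin (k + 1) → MvPowerSeries (Fin kap) K) : ℝ :=
  Height.logHeight (fun j => MvPowerSeries.constantCoeff (f j))

/-- the Taylor coefficients of `g` in `Z_p` are those of `f`, multiplied by `p^(M |tau|)`. -/
def Integral {p : ℕ} [Fact p.Prime] {K : Type} [Field K] {kap : ℕ} (iota : K →+* ℚ_[p]) (M : ℕ)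
    (f : MvPowerSeries (Fin kap) K) (g : MvPowerSeries (Fin kap) ℤ_[p]) : Prop :=
  ∀ tau, ((MvPowerSeries.coeff tau g : ℤ_[p]) : ℚ_[p]) =
    (p : ℚ_[p]) ^ (M * tau.degree) * iota (MvPowerSeries.coeff tau f)

/-- `Q_p^(2 n)` and its bilinear and linear forms. -/
abbrev Vc (p : ℕ) [Fact p.Prime] (n : ℕ) : Type := Fin (2 * n) → ℚ_[p]
abbrev Bil (p : ℕ) [Fact p.Prime] (n : ℕ) : Type :=
  LinearMap.BilinForm ℚ_[p] (Fin (2 * n) → ℚ_[p])
abbrev Cov (p : ℕ) [Fact p.Prime] (n : ℕ) : Type := (Fin (2 * n) → ℚ_[p]) →ₗ[ℚ_[p]] ℚ_[p]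

/-- The symplectic form `form`, the vector fields `vec i = d/dm_i` of the interpolated action of
`Z_p^r` on `U` and the fields `ham i = X_i`, at a point of `U`. -/
structure Symp {p : ℕ} [Fact p.Prime] {n r kap : ℕ} (form : Bil p n) (vec : Fin r → Vc p n)
    (ham : Fin kap → Vc p n) (dphi : Fin kap → Cov p n) : Prop where
  alt : form.IsAlt
  nondeg : form.Nondegenerate
  /-- the fields `d/dm_i` commute and preserve the form, so its values on them are constant on `U`
  (Cartan's formula); the interpolated action preserves the closed subset `F` of `U`, so at `z` these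
  fields are tangent to `F`, on which the form vanishes. -/
  form_vec : ∀ i j, form (vec i) (vec j) = 0
  /-- `X_i` is the Hamiltonian field of the function `phi_i`, which is invariant under the group,
  hence under the fields `d/dm_j`, and also under the `X_j` (the fibres of the Iitaka fibration are
  coisotropic). -/
  form_ham : ∀ i v, form (ham i) v = dphi i v
  dphi_vec : ∀ i j, dphi i (vec j) = 0
  dphi_ham : ∀ i j, dphi i (ham j) = 0

/-- the dimension of the span of the fields. -/
noncomputable def rkSp {p : ℕ} [Fact p.Prime] {n r kap : ℕ} (vec : Fin r → Vc p n)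
    (ham : Fin kap → Vc p n) : ℕ :=
  Module.finrank ℚ_[p] (Submodule.span ℚ_[p] (Set.range vec ∪ Set.range ham))

/-- the series `fn m` are, modulo `p^N`, the values of a polynomial at `p (m P1 + t P2)`. -/
def Analytic {p : ℕ} [Fact p.Prime] {r kap dl : ℕ} (P1 : Fin r → Fin dl → ℤ_[p])
    (P2 : Fin kap → Fin dl → ℤ_[p]) (fn : (Fin r → ℤ) → MvPowerSeries (Fin kap) ℤ_[p]) : Prop :=
  ∀ N : ℕ, ∃ Q : MvPolynomial (Fin dl) ℤ_[p], ∀ m tau,
    (p : ℤ_[p]) ^ N ∣ MvPowerSeries.coeff tau (fn m) -
      MvPowerSeries.coeff tau (MvPolynomial.aeval (lin P1 P2 m) Q)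

/-- the determinant of the Taylor coefficients of order `tau i` at `y` of the products over `s` of
the translates by `nu i s` of the normalised coordinates `J j s`. -/
noncomputable def jdet {P : Type} {r kap k : ℕ} (act : (Fin r → ℤ) → P → P)
    (JA : P → (P → ℂ) → MvPowerSeries (Fin kap) ℂ) (a : Fin (k + 1) → P → ℂ) {N l : ℕ}
    (nu : Fin N → Fin l → (Fin r → ℤ)) (tau : Fin N → (Fin kap →₀ ℕ))
    (J : Fin N → Fin l → Fin (k + 1)) (y : P) : ℂ :=
  Matrix.det (Matrix.of fun i j =>
    MvPowerSeries.coeff (tau i) (∏ s, nc JA a (act (nu i s) y) (J j s)))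

/-- the value of the polynomial `G` at the integral point `y`. -/
noncomputable abbrev evz {d : ℕ} (G : MvPolynomial (Fin d) ℂ) (y : Fin d → ℤ) : ℂ :=
  MvPolynomial.eval (fun i => (y i : ℂ)) G

/-- THE SIZE OF THE TAYLOR COEFFICIENTS of `f`, in terms of the vector `e`. -/
structure Size {K : Type} [Field K] [NumberField K] {kap k' : ℕ} (f : MvPowerSeries (Fin kap) K)
    (e : Fin (k' + 1) → K) : Prop where
  fin : ∀ tau, ∀ v, FinPl v → v ((∏ i, (tau i).factorial : ℕ) * MvPowerSeries.coeff tau f) ≤
    (⨆ i, v (e i)) ^ (tau.degree + 1)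
  arch : ∀ tau, ∀ v, InfPl v → v (MvPowerSeries.coeff tau f) ≤ (⨆ i, v (e i)) ^ (tau.degree + 1)

/-- ARITHMETIC OF A RESIDUE DISC. `A` is a very ample class on `Y`, `act m` (`m` in `Z^r`) are
commuting automorphisms acting on the classes by `pull m`; everything (also the fields `X_i`) is
defined over a number field `k`, also a smooth point `z` of an irreducible component `F` of the
fixed point set of an automorphism which commutes with the `act m`; `F` is preserved by the `act m`,
and the symplectic form vanishes on `F`.  `p >= 3` is a prime and `v | p` a place of `k` with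
`k_v = Q_p` at which `Y`, `A`, `F`, the automorphisms and a finite map `f : Y → P^(2 n)` (given by
sections of `A`, unramified at `z`) have good reduction; `U` is the residue disc of `z` in `Y(Q_p)`,
`U'` a smaller disc in `U` on which the fields `X_i` are regular; the group (a subgroup of finite
index of the given one) maps `U` and `U'` to themselves and is the identity modulo `p^2` on them. The
fields `X_i` commute (the fibres of the Iitaka fibration are coisotropic). -/
structure Disc {Lam : Type} [AddCommGroup Lam] (q : Lam → Lam → ℤ) (NS Ample : Set Lam)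
    {P : Type} (SecA : Submodule ℂ (P → ℂ)) (n : ℕ) {r kap : ℕ} (act : (Fin r → ℤ) → P → P)
    (pull : (Fin r → ℤ) → Lam → Lam) (A : Lam) (Good : Set P)
    (JA : P → (P → ℂ) → MvPowerSeries (Fin kap) ℂ) (p : ℕ) [Fact p.Prime] where
  /-- the coordinates of the projective embedding given by `A`, a basis of sections over `k`. -/
  k : ℕ
  a : Fin (k + 1) → P → ℂ
  span_a : Spans a SecA
  /-- the algebraic points `x` of `U'` in `Good` which lie over rational integral points of an
  affine space `A^(2 n)` in `P^(2 n)` under `f`; `K x = k(x)`, of degree at most `d`. -/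
  D : Type
  K : D → Type
  [fld : ∀ x, Field (K x)]
  [nf : ∀ x, NumberField (K x)]
  d : ℕ
  deg : ∀ x, Module.finrank ℚ (K x) ≤ d
  /-- the complex point, the embeddings of `K x` into `C` and (from `x` in `Y(Q_p)`) into `Q_p`. -/
  pt : D → P
  pt_good : ∀ x, pt x ∈ Good
  emb : ∀ x, K x →+* ℂ
  iota : ∀ x, K x →+* ℚ_[p]
  /-- the jets of the normalised coordinates at the point `m.x`; the first coordinate is a unit on
  `U`. -/
  co : ∀ x, (Fin r → ℤ) → Fin (k + 1) → MvPowerSeries (Fin kap) (K x)
  co_zero : ∀ x m, co x m 0 = 1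
  a_ne : ∀ x m, a 0 (act m (pt x)) ≠ 0
  co_val : ∀ x m j, MvPowerSeries.map (emb x) (co x m j) = nc JA a (act m (pt x)) j
  /-- the place of `K x` defined by `iota` has completion `Q_p`, so that its normalised absolute
  value is the pull back of the one of `Q_p`. -/
  place : ∀ x, ∃ w, FinPl w ∧ ∀ t, w t = ‖iota x t‖
  /-- `U` has coordinates in which `U'` is a disc of radius `p^(-M)` at most; so the fields
  `p^M X_i` have flows on `U'` defined for `t` in `Z_p`: the Taylor coefficients of order `tau`,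
  multiplied by `p^(M |tau|)`, are integral. -/
  M : ℕ
  fn : D → (Fin r → ℤ) → Fin (k + 1) → MvPowerSeries (Fin kap) ℤ_[p]
  fn_val' : ∀ x m j, Integral (iota x) M (co x m j) (fn x m j)
  /-- the symplectic form at `x`, the vector fields `d/dm_i` of the interpolated action of `Z_p^r` on
  `U` and the fields `X_i`, at the point `x`, the differentials of the functions `phi_i`. -/
  form : D → Bil p n
  vec : D → Fin r → Vc p n
  ham : D → Fin kap → Vc p n
  dphi : D → Fin kap → Cov p n
  symp : ∀ x, Symp (form x) (vec x) (ham x) (dphi x)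
  /-- the dimension of the span of all these fields at `x`. -/
  dl : D → ℕ
  dl_eq' : ∀ x, dl x = rkSp (vec x) (ham x)
  /-- POONEN (p-adic interpolation of iterates): `exp(p^M t X) m.x` is an analytic function of
  `(m, t)` in `Z_p^(r + kap)`, a power series in `p m, p t` with coefficients in `Z_p`.  The fields
  commute; if a combination of them vanishes at `x`, its flow fixes `x` (uniqueness of integral
  curves), so the function factors through the quotient of `Z_p^(r + kap)` by these combinations, a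
  free module of rank `dl x`; it is the analytic function, modulo `p^N` the polynomial `Q`, of
  `p (m P1 + t P2)`. -/
  P1 : ∀ x, Fin r → Fin (dl x) → ℤ_[p]
  P2 : ∀ x, Fin kap → Fin (dl x) → ℤ_[p]
  fn_an' : ∀ x j, Analytic (P1 x) (P2 x) fun m => fn x m j
  /-- the finite map `f` and HENSEL: every integral point of `A^(2 n)` congruent to `y0` modulo `p0`
  (a power of `p`) lifts to a point of `U'`, which is in `Good` if the image of the complement of
  `Good`, a hypersurface `G0 = 0`, is avoided; the height of the point is comparable with that of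
  its image. -/
  p0 : ℕ
  p0_pos : 0 < p0
  y0 : Fin (2 * n) → ℤ
  f : D → (Fin (2 * n) → ℤ)
  G0 : MvPolynomial (Fin (2 * n)) ℂ
  G0_ne : G0 ≠ 0
  hensel : ∃ C : ℝ, ∀ y : Fin (2 * n) → ℤ, (∀ i, (p0 : ℤ) ∣ y i - y0 i) →
    evz G0 y ≠ 0 → ∃ x : D, f x = y ∧ ht0 (co x 0) ≤ C * (1 + Real.log (1 + ∑ i, |(y i : ℝ)|))
  /-- a determinant of Taylor coefficients, of order at most `T`, of products of `l` translates of
  normalised coordinates is a rational function over `k`, with poles of order at most `T + 1` along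
  the translates of `a_0 = 0` and (if `l >= 1`; `q(pull m A, A) >= 1`) `O(T)` for every row along the
  complement of `Good`; the zeros are
  mapped by `f` to a hypersurface, whose degree is bounded by the projection formula and Fujiki's
  relation `G.A^(2 n - 1) = const q(G, A)`. -/
  push' : ∃ C : ℝ, 0 < C ∧ ∀ (N l T : ℕ) (nu : Fin N → Fin l → (Fin r → ℤ))
    (tau : Fin N → (Fin kap →₀ ℕ)) (J : Fin N → Fin l → Fin (k + 1)),
    (∀ i, (tau i).degree ≤ T) →
    (∃ y ∈ Good, (∀ i s, a 0 (act (nu i s) y) ≠ 0) ∧ jdet act JA a nu tau J y ≠ 0) →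
    ∃ G : MvPolynomial (Fin (2 * n)) ℂ, G ≠ 0 ∧
      (G.totalDegree : ℝ) ≤ C * (1 + T) * ∑ i, ∑ s, (q (pull (nu i s) A) A : ℝ) ∧
      ∀ x : D, evz G (f x) ≠ 0 → jdet act JA a nu tau J (pt x) ≠ 0
  /-- THE SIZE OF THE TAYLOR COEFFICIENTS. On the affine open set where `a_0` is not zero, in
  `Good`, the `X_i` are derivations of the coordinate ring, which is generated by finitely many
  functions; a derivative of order `t` of a generator is a polynomial in them of degree at most
  `1 + C t`, with integral coefficients at almost all places and of size at most `C^t t!` (Cauchy).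
  `e x m` is the vector of the values at `m.x` of the monomials of degree at most `C` of the
  generators and of some rational constants, so its height is bounded by the one of `m.x`. -/
  k' : ℕ
  e : ∀ x, (Fin r → ℤ) → Fin (k' + 1) → K x
  e_zero : ∀ x m, e x m 0 = 1
  cost : ∀ x m j, Size (co x m j) (e x m)
  cost_height : ∃ C : ℝ, ∀ x m, ht (e x m) ≤ C * (1 + ht0 (co x m))
  /-- WEIL'S HEIGHT MACHINE for the points `m.x`: `H x m G` = height of `m.x` for the class `G`,
  relative to `K x` (that is `[K x : Q]` times the absolute one). -/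
  H : D → (Fin r → ℤ) → Lam → ℝ
  H_add : ∀ x m, ∀ G ∈ NS, ∀ G' ∈ NS, H x m (G + G') = H x m G + H x m G'
  H_A : ∃ C : ℝ, ∀ x m, |H x m A - ht0 (co x m)| ≤ C
  H_pull : ∀ G ∈ NS, ∀ g : Fin r → ℤ, ∃ C : ℝ, ∀ x m, |H x (m + g) G - H x m (pull g G)| ≤ C
  H_pos : ∀ G ∈ Ample, ∃ C : ℝ, ∀ x m, - C ≤ H x m G

attribute [instance] Disc.fld Disc.nf

namespace Disc

variable {Lam : Type} [AddCommGroup Lam] {q : Lam → Lam → ℤ} {NS Ample : Set Lam}
    {P : Type} {SecA : Submodule ℂ (P → ℂ)} {n : ℕ} {r kap : ℕ} {act : (Fin r → ℤ) → P → P}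
    {pull : (Fin r → ℤ) → Lam → Lam} {A : Lam} {Good : Set P}
    {JA : P → (P → ℂ) → MvPowerSeries (Fin kap) ℂ} {p : ℕ} [Fact p.Prime]
    (D : Disc q NS Ample SecA n act pull A Good JA p)

theorem fn_val (x : D.D) (m : Fin r → ℤ) (j : Fin (D.k + 1)) (tau : Fin kap →₀ ℕ) :
    ((MvPowerSeries.coeff tau (D.fn x m j) : ℤ_[p]) : ℚ_[p]) =
    (p : ℚ_[p]) ^ (D.M * tau.degree) * D.iota x (MvPowerSeries.coeff tau (D.co x m j)) :=
  D.fn_val' x m j tau

theorem form_alt (x : D.D) : (D.form x).IsAlt := (D.symp x).alt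

theorem form_nondeg (x : D.D) : (D.form x).Nondegenerate := (D.symp x).nondeg

theorem form_vec (x : D.D) (i j : Fin r) : D.form x (D.vec x i) (D.vec x j) = 0 :=
  (D.symp x).form_vec i j

theorem form_ham (x : D.D) (i : Fin kap) (v : Fin (2 * n) → ℚ_[p]) :
    D.form x (D.ham x i) v = D.dphi x i v :=
  (D.symp x).form_ham i v

theorem dphi_vec (x : D.D) (i : Fin kap) (j : Fin r) : D.dphi x i (D.vec x j) = 0 :=
  (D.symp x).dphi_vec i j

theorem dphi_ham (x : D.D) (i j : Fin kap) : D.dphi x i (D.ham x j) = 0 :=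
  (D.symp x).dphi_ham i j

theorem dl_eq (x : D.D) : D.dl x = Module.finrank ℚ_[p]
    (Submodule.span ℚ_[p] (Set.range (D.vec x) ∪ Set.range (D.ham x))) :=
  D.dl_eq' x

theorem fn_an (x : D.D) (j : Fin (D.k + 1)) (N : ℕ) :
    ∃ Q : MvPolynomial (Fin (D.dl x)) ℤ_[p], ∀ m tau,
    (p : ℤ_[p]) ^ N ∣ MvPowerSeries.coeff tau (D.fn x m j) -
      MvPowerSeries.coeff tau (MvPolynomial.aeval (lin (D.P1 x) (D.P2 x) m) Q) :=
  D.fn_an' x j N

theorem push : ∃ C : ℝ, 0 < C ∧ ∀ (N l T : ℕ) (nu : Fin N → Fin l → (Fin r → ℤ))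
    (tau : Fin N → (Fin kap →₀ ℕ)) (J : Fin N → Fin l → Fin (D.k + 1)),
    (∀ i, (tau i).degree ≤ T) →
    (∃ y ∈ Good, (∀ i s, D.a 0 (act (nu i s) y) ≠ 0) ∧
      Matrix.det (Matrix.of fun i j =>
        MvPowerSeries.coeff (tau i) (∏ s, nc JA D.a (act (nu i s) y) (J j s))) ≠ 0) →
    ∃ G : MvPolynomial (Fin (2 * n)) ℂ, G ≠ 0 ∧
      (G.totalDegree : ℝ) ≤ C * (1 + T) * ∑ i, ∑ s, (q (pull (nu i s) A) A : ℝ) ∧
      ∀ x : D.D, MvPolynomial.eval (fun i => (D.f x i : ℂ)) G ≠ 0 →
        Matrix.det (Matrix.of fun i j =>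
          MvPowerSeries.coeff (tau i) (∏ s, nc JA D.a (act (nu i s) (D.pt x)) (J j s))) ≠ 0 :=
  D.push'

theorem cost_fin (x : D.D) (m : Fin r → ℤ) (j : Fin (D.k + 1)) (tau : Fin kap →₀ ℕ) :
    ∀ v ∈ Height.AdmissibleAbsValues.nonarchAbsVal (K := D.K x),
    v ((∏ i, (tau i).factorial : ℕ) * MvPowerSeries.coeff tau (D.co x m j)) ≤
      (⨆ i, v (D.e x m i)) ^ (tau.degree + 1) :=
  (D.cost x m j).fin tau

theorem cost_arch (x : D.D) (m : Fin r → ℤ) (j : Fin (D.k + 1)) (tau : Fin kap →₀ ℕ) :
    ∀ v ∈ Height.AdmissibleAbsValues.archAbsVal (K := D.K x),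
    v (MvPowerSeries.coeff tau (D.co x m j)) ≤ (⨆ i, v (D.e x m i)) ^ (tau.degree + 1) :=
  (D.cost x m j).arch tau

end Disc

end Pool.Agent.H13.HN
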