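import Mathlib

/-!
# The sum of the terms of the inequality at an algebraic point (module ENDNUM)
-/

namespace Pool.Agent.H74.HN

theorem endnum_log_factorial_le (N : ℕ) : Real.log (N.factorial) ≤ N * Real.log N := by
  have h1 : (N.factorial : ℝ) ≤ (N : ℝ) ^ N := by exact_mod_cast Nat.factorial_le_pow N
  have h2 := Real.log_le_log (by exact_mod_cast N.factorial_pos) h1
  rwa [Real.log_pow] at h2

/-- **The sum of all terms of `alg_jet'`** (`H` bounds all heights, `h0` is the height of the point). -/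
theorem end_num (n : ℕ) (hn : 1 ≤ n) (C Ch cs c3 c6 c9 d : ℝ) (hC : 0 ≤ C) (hCh : 0 ≤ Ch)
    (hcs : 1 ≤ cs) (hc3 : 0 ≤ c3) (hc6 : 0 ≤ c6) (hc9 : 0 ≤ c9) (hd : 0 ≤ d) :
    ∃ c4 : ℝ, 0 ≤ c4 ∧ ∀ (N Lc K T : ℕ) (m R : ℝ), 1 ≤ m → R = 2 ^ K → 1 ≤ N →
      (N : ℝ) ≤ c3 * (m ^ (2 * n) * R ^ (2 * n)) → (Lc : ℝ) ≤ c9 * m →
      (T : ℝ) ≤ (4 * n + 2) * m →
      ∀ h0 : ℝ, 0 ≤ h0 → ∀ D0 : ℝ, 0 ≤ D0 → D0 ≤ N * (Lc * (c6 * R ^ 2)) →
      h0 ≤ C * (1 + Real.log (1 + (1 + T) * D0)) →
      ∀ H : ℝ, H ≤ Ch * (cs * (1 + R)) ^ 2 *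
          ((cs * (1 + R)) ^ (1 / (8 * n : ℝ)) + 1 + h0) →
      C * (N * (Lc * (1 + H))) + C * T * (N * ((2 * K + 5) * (1 + H))) +
          d * Real.log N.factorial +
          C * N * T * (1 + Real.log (T + 1) + Real.log (Lc + 1)) ≤
        N * (c4 * m * (1 + R) ^ 2 * (cs * (1 + R)) ^ (1 / (8 * n : ℝ)) *
          (1 + Real.log (1 + m * R)) ^ 2) := by
  have hn0 : (0 : ℝ) ≤ (n : ℝ) := Nat.cast_nonneg _
  set b1 : ℝ := 1 + (4 * n + 3) * (c3 * c9 * c6) with hb1
  have hb1' : 1 ≤ b1 := by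
    have : (0 : ℝ) ≤ (4 * n + 3) * (c3 * c9 * c6) := by positivity
    linarith
  set a1 : ℝ := Real.log b1 + (2 * n + 3) with ha1
  have ha1' : 0 ≤ a1 := by
    have := Real.log_nonneg hb1'
    positivity
  set a2 : ℝ := 1 + Ch * cs ^ 2 * (2 + C * (1 + a1)) with ha2
  have ha2' : 0 ≤ a2 := by positivity
  set a3 : ℝ := Real.log (1 + c3) + 2 * n with ha3
  have ha3' : 0 ≤ a3 := by
    have := Real.log_nonneg (show (1 : ℝ) ≤ 1 + c3 by linarith)
    positivity
  set a4 : ℝ := 3 + Real.log (4 * n + 3) + Real.log (1 + c9) with ha4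
  have ha4' : 0 ≤ a4 := by
    have h1 := Real.log_nonneg (show (1 : ℝ) ≤ 1 + c9 by linarith)
    have h2 := Real.log_nonneg (show (1 : ℝ) ≤ 4 * n + 3 by linarith)
    positivity
  refine ⟨C * c9 * a2 + 9 * C * (4 * n + 2) * a2 + d * a3 + C * (4 * n + 2) * a4, by positivity,
    ?_⟩
  intro N Lc K T m R hm hR hN hN3 hLc hT h0 hh0 D0 hD00 hD0 hh H hH
  have hR1 : 1 ≤ R := by
    rw [hR]
    exact one_le_pow₀ (by norm_num)
  have hm0 : 0 < m := by linarith
  have hR0 : 0 < R := by linarith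
  have hmR : 1 ≤ m * R := one_le_mul_of_one_le_of_one_le hm hR1
  have hRle : R ≤ m * R := le_mul_of_one_le_left hR0.le hm
  have hmle : m ≤ m * R := le_mul_of_one_le_right hm0.le hR1
  set l : ℝ := 1 + Real.log (1 + m * R) with hl
  have hlog0 : 0 ≤ Real.log (1 + m * R) := Real.log_nonneg (by linarith)
  have hl1 : 1 ≤ l := by linarith
  set V : ℝ := (cs * (1 + R)) ^ (1 / (8 * n : ℝ)) with hV
  have hV1 : 1 ≤ V := by
    exact Real.one_le_rpow (one_le_mul_of_one_le_of_one_le hcs (by linarith)) (by positivity)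
  -- the logarithms
  have hK : (K : ℝ) ≤ 2 * l := by
    have h1 : Real.log R = K * Real.log 2 := by rw [hR, Real.log_pow]
    have h2 : Real.log R ≤ Real.log (1 + m * R) := Real.log_le_log hR0 (by linarith)
    have h3 : (1 : ℝ) / 2 ≤ Real.log 2 := by
      have := Real.log_two_gt_d9
      linarith
    have h4 : (K : ℝ) * (1 / 2) ≤ K * Real.log 2 :=
      mul_le_mul_of_nonneg_left h3 (Nat.cast_nonneg _)
    linarith
  have hlogN : Real.log N ≤ a3 * l := by
    have hNpos : (0 : ℝ) < N := by exact_mod_cast hN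
    have h1 : (N : ℝ) ≤ (1 + c3) * (1 + m * R) ^ (2 * n) := by
      refine hN3.trans ?_
      rw [← mul_pow]
      exact mul_le_mul (by linarith) (pow_le_pow_left₀ (by positivity) (by linarith) _)
        (by positivity) (by linarith)
    have h2 := Real.log_le_log hNpos h1
    rw [Real.log_mul (by positivity) (by positivity), Real.log_pow] at h2
    have h3 := Real.log_nonneg (show (1 : ℝ) ≤ 1 + c3 by linarith)
    push_cast at h2
    have h4 : a3 * l = Real.log (1 + c3) + 2 * n * Real.log (1 + m * R) +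
        (Real.log (1 + c3) * Real.log (1 + m * R) + 2 * n) := by
      rw [ha3, hl]
      ring
    have h5 := mul_nonneg h3 hlog0
    rw [h4]
    linarith
  have hT1 : (T : ℝ) + 1 ≤ (4 * n + 3) * (1 + m * R) := by
    have h2 : (4 * n + 2 : ℝ) * m ≤ (4 * n + 2) * (m * R) :=
      mul_le_mul_of_nonneg_left hmle (by positivity)
    have h3 : (4 * n + 3 : ℝ) * (1 + m * R) = (4 * n + 2) * (m * R) + (m * R + (4 * n + 3)) := by
      ring
    rw [h3]
    linarith
  have hL1 : (Lc : ℝ) + 1 ≤ (1 + c9) * (1 + m * R) := by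
    have h2 : c9 * m ≤ c9 * (m * R) := mul_le_mul_of_nonneg_left hmle hc9
    have h3 : (1 + c9) * (1 + m * R) = c9 * (m * R) + (1 + c9 + m * R) := by ring
    rw [h3]
    linarith
  have hT0 : (0 : ℝ) ≤ T := Nat.cast_nonneg _
  have hL0 : (0 : ℝ) ≤ Lc := Nat.cast_nonneg _
  have hN0 : (0 : ℝ) ≤ N := Nat.cast_nonneg _
  have hlogT : Real.log ((T : ℝ) + 1) ≤ Real.log (4 * n + 3) + Real.log (1 + m * R) := by
    have h1 := Real.log_le_log (by linarith) hT1
    rwa [Real.log_mul (by positivity) (by positivity)] at h1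
  have hlogL : Real.log ((Lc : ℝ) + 1) ≤ Real.log (1 + c9) + Real.log (1 + m * R) := by
    have h1 := Real.log_le_log (by linarith) hL1
    rwa [Real.log_mul (by positivity) (by positivity)] at h1
  -- the height of the point
  have hD : 1 + (1 + T) * D0 ≤ b1 * (1 + m * R) ^ (2 * n + 3) := by
    have h1 : D0 ≤ (c3 * c9 * c6) * (1 + m * R) ^ (2 * n + 2) := by
      have h2 : (N : ℝ) * (Lc * (c6 * R ^ 2)) ≤
          (c3 * (m ^ (2 * n) * R ^ (2 * n))) * ((c9 * m) * (c6 * R ^ 2)) :=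
        mul_le_mul hN3 (mul_le_mul_of_nonneg_right hLc (by positivity)) (by positivity)
          (by positivity)
      have h3 : (c3 * (m ^ (2 * n) * R ^ (2 * n))) * ((c9 * m) * (c6 * R ^ 2)) =
          (c3 * c9 * c6) * ((m * R) ^ (2 * n) * (m * R ^ 2)) := by
        rw [mul_pow]
        ring
      have h4 : m * R ^ 2 ≤ (m * R) ^ 2 := by
        rw [mul_pow]
        exact mul_le_mul_of_nonneg_right (le_self_pow₀ hm (by norm_num)) (by positivity)
      have h5 : (m * R) ^ (2 * n) * (m * R ^ 2) ≤ (1 + m * R) ^ (2 * n + 2) := by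
        rw [pow_add]
        refine mul_le_mul (pow_le_pow_left₀ (by positivity) (by linarith) _)
          (h4.trans (pow_le_pow_left₀ (by positivity) (by linarith) _)) (by positivity)
          (by positivity)
      calc D0 ≤ _ := hD0
        _ ≤ _ := h2
        _ = _ := h3
        _ ≤ _ := mul_le_mul_of_nonneg_left h5 (by positivity)
    have h2 : (1 + T : ℝ) * D0 ≤
        ((4 * n + 3) * (1 + m * R)) * ((c3 * c9 * c6) * (1 + m * R) ^ (2 * n + 2)) :=
      mul_le_mul (by linarith) h1 hD00 (by positivity)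
    have h3 : ((4 * n + 3) * (1 + m * R)) * ((c3 * c9 * c6) * (1 + m * R) ^ (2 * n + 2)) =
        ((4 * n + 3) * (c3 * c9 * c6)) * (1 + m * R) ^ (2 * n + 3) := by ring
    have h4 : (1 : ℝ) ≤ (1 + m * R) ^ (2 * n + 3) := one_le_pow₀ (by linarith)
    rw [h3] at h2
    rw [hb1, add_mul]
    linarith
  have hlogD : Real.log (1 + (1 + T) * D0) ≤ a1 * l := by
    have h1 : (0 : ℝ) < 1 + (1 + T) * D0 := by positivity
    have h2 := Real.log_le_log h1 hD
    rw [Real.log_mul (by positivity) (by positivity), Real.log_pow] at h2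
    have h3 := Real.log_nonneg hb1'
    push_cast at h2
    have h4 : a1 * l = Real.log b1 + (2 * n + 3) * Real.log (1 + m * R) +
        (Real.log b1 * Real.log (1 + m * R) + (2 * n + 3)) := by
      rw [ha1, hl]
      ring
    have h5 := mul_nonneg h3 hlog0
    rw [h4]
    linarith
  have hh1 : h0 ≤ C * (1 + a1) * l := by
    refine hh.trans ?_
    rw [mul_assoc]
    refine mul_le_mul_of_nonneg_left ?_ hC
    have h1 : (1 + a1) * l = l + a1 * l := by ring
    rw [h1]
    linarith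
  have hVl : 1 ≤ V * l := one_le_mul_of_one_le_of_one_le hV1 hl1
  have hH1 : 1 + H ≤ a2 * (1 + R) ^ 2 * (V * l) := by
    have h1 : V + 1 + h0 ≤ (2 + C * (1 + a1)) * (V * l) := by
      have e1 : V ≤ V * l := le_mul_of_one_le_right (by linarith) hl1
      have e2 : l ≤ V * l := le_mul_of_one_le_left (by linarith) hV1
      have e3 : C * (1 + a1) * l ≤ C * (1 + a1) * (V * l) :=
        mul_le_mul_of_nonneg_left e2 (by positivity)
      have e4 : (2 + C * (1 + a1)) * (V * l) = V * l + V * l + C * (1 + a1) * (V * l) := by ring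
      rw [e4]
      linarith
    have h2 : Ch * (cs * (1 + R)) ^ 2 * (V + 1 + h0) ≤
        Ch * (cs * (1 + R)) ^ 2 * ((2 + C * (1 + a1)) * (V * l)) :=
      mul_le_mul_of_nonneg_left h1 (by positivity)
    have h3 : Ch * (cs * (1 + R)) ^ 2 * ((2 + C * (1 + a1)) * (V * l)) =
        (Ch * cs ^ 2 * (2 + C * (1 + a1))) * (1 + R) ^ 2 * (V * l) := by ring
    have h4 : (1 : ℝ) ≤ (1 + R) ^ 2 * (V * l) := by
      exact one_le_mul_of_one_le_of_one_le (one_le_pow₀ (by linarith)) hVl
    rw [h3] at h2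
    rw [ha2, add_mul, add_mul, one_mul]
    linarith
  set W : ℝ := (1 + R) ^ 2 * V with hW
  have hW1 : 1 ≤ W := by
    exact one_le_mul_of_one_le_of_one_le (one_le_pow₀ (by linarith)) hV1
  have hH2 : 1 + H ≤ a2 * W * l := by
    calc 1 + H ≤ _ := hH1
      _ = a2 * W * l := by rw [hW]; ring
  -- the four terms
  have t1 : (Lc : ℝ) * (1 + H) ≤ c9 * a2 * (m * W * l ^ 2) := by
    calc (Lc : ℝ) * (1 + H) ≤ Lc * (a2 * W * l) := mul_le_mul_of_nonneg_left hH2 hL0
      _ ≤ (c9 * m) * (a2 * W * l) := mul_le_mul_of_nonneg_right hLc (by positivity)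
      _ = c9 * a2 * (m * W * l) := by ring
      _ ≤ c9 * a2 * (m * W * l ^ 2) := by
          refine mul_le_mul_of_nonneg_left ?_ (by positivity)
          have : l ≤ l ^ 2 := le_self_pow₀ hl1 (by norm_num)
          exact mul_le_mul_of_nonneg_left this (by positivity)
  have t2 : (T : ℝ) * ((2 * K + 5) * (1 + H)) ≤ 9 * (4 * n + 2) * a2 * (m * W * l ^ 2) := by
    have h1 : (2 * K + 5 : ℝ) ≤ 9 * l := by linarith
    have h2 : (0 : ℝ) ≤ 2 * K + 5 := by positivity
    calc (T : ℝ) * ((2 * K + 5) * (1 + H)) ≤ T * ((2 * K + 5) * (a2 * W * l)) :=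
          mul_le_mul_of_nonneg_left (mul_le_mul_of_nonneg_left hH2 h2) hT0
      _ ≤ T * ((9 * l) * (a2 * W * l)) :=
          mul_le_mul_of_nonneg_left (mul_le_mul_of_nonneg_right h1 (by positivity)) hT0
      _ ≤ ((4 * n + 2) * m) * ((9 * l) * (a2 * W * l)) :=
          mul_le_mul_of_nonneg_right hT (by positivity)
      _ = _ := by ring
  have hQ1 : 1 ≤ m * W := one_le_mul_of_one_le_of_one_le hm hW1
  have t3 : Real.log N.factorial ≤ N * (a3 * (m * W * l ^ 2)) := by
    refine (endnum_log_factorial_le N).trans (mul_le_mul_of_nonneg_left ?_ hN0)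
    refine hlogN.trans (mul_le_mul_of_nonneg_left ?_ ha3')
    have e1 : l ≤ l ^ 2 := le_self_pow₀ hl1 (by norm_num)
    have e2 : 1 * l ^ 2 ≤ m * W * l ^ 2 := mul_le_mul_of_nonneg_right hQ1 (sq_nonneg l)
    rw [one_mul] at e2
    exact e1.trans e2
  have t4 : (T : ℝ) * (1 + Real.log (T + 1) + Real.log (Lc + 1)) ≤
      (4 * n + 2) * a4 * (m * W * l ^ 2) := by
    have h1 := Real.log_nonneg (show (1 : ℝ) ≤ 1 + c9 by linarith)
    have h2 := Real.log_nonneg (show (1 : ℝ) ≤ 4 * n + 3 by linarith)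
    have h3 : 1 + Real.log ((T : ℝ) + 1) + Real.log ((Lc : ℝ) + 1) ≤ a4 * l := by
      have h4 : a4 * l = 1 + (Real.log (4 * n + 3) + Real.log (1 + m * R)) +
          (Real.log (1 + c9) + Real.log (1 + m * R)) + (2 + Real.log (1 + m * R) +
          (Real.log (4 * n + 3) * Real.log (1 + m * R) +
            Real.log (1 + c9) * Real.log (1 + m * R))) := by
        rw [ha4, hl]
        ring
      have h5 := mul_nonneg h1 hlog0
      have h6 := mul_nonneg h2 hlog0
      rw [h4]
      linarith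
    calc (T : ℝ) * (1 + Real.log (T + 1) + Real.log (Lc + 1)) ≤ T * (a4 * l) :=
          mul_le_mul_of_nonneg_left h3 hT0
      _ ≤ ((4 * n + 2) * m) * (a4 * l) := mul_le_mul_of_nonneg_right hT (by positivity)
      _ = (4 * n + 2) * a4 * (m * 1 * l) := by ring
      _ ≤ (4 * n + 2) * a4 * (m * W * l ^ 2) := by
          refine mul_le_mul_of_nonneg_left ?_ (by positivity)
          have h4 : l ≤ l ^ 2 := le_self_pow₀ hl1 (by norm_num)
          exact mul_le_mul (mul_le_mul_of_nonneg_left hW1 hm0.le) h4 (by linarith)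
            (by positivity)
  calc C * (N * (Lc * (1 + H))) + C * T * (N * ((2 * K + 5) * (1 + H))) +
          d * Real.log N.factorial +
          C * N * T * (1 + Real.log (T + 1) + Real.log (Lc + 1))
      = C * N * (Lc * (1 + H)) + C * N * (T * ((2 * K + 5) * (1 + H))) +
          d * Real.log N.factorial +
          C * N * (T * (1 + Real.log (T + 1) + Real.log (Lc + 1))) := by ring
    _ ≤ C * N * (c9 * a2 * (m * W * l ^ 2)) + C * N * (9 * (4 * n + 2) * a2 * (m * W * l ^ 2)) +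
          d * (N * (a3 * (m * W * l ^ 2))) +
          C * N * ((4 * n + 2) * a4 * (m * W * l ^ 2)) := by
        refine add_le_add (add_le_add (add_le_add ?_ ?_) ?_) ?_
        · exact mul_le_mul_of_nonneg_left t1 (by positivity)
        · exact mul_le_mul_of_nonneg_left t2 (by positivity)
        · exact mul_le_mul_of_nonneg_left t3 hd
        · exact mul_le_mul_of_nonneg_left t4 (by positivity)
    _ = _ := by rw [hW]; ring

end Pool.Agent.H74.HN
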