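import Pool.Agent.H83.HN.Iface
import Pool.Agent.H79.HN.COI

/-!
# The Iitaka fibration of an isotropic nef class on a hyperkaehler manifold

`L` is a nef class with `q L L = 0`, `L ≠ 0`, on a projective hyperkaehler manifold `Y` of
dimension `2 n` (defined over a number field, with all its classes and automorphisms).
-/

/-! Abbreviations for statements about points, sections and automorphisms. -/

namespace Pool.Agent.H83.HN

/-- `u` is an element of the space `V` of functions. -/
abbrev InV {P : Type} (V : Submodule ℂ (P → ℂ)) (u : P → ℂ) : Prop := u ∈ V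

/-- `u` is not the zero function. -/
abbrev NzF {P : Type} (u : P → ℂ) : Prop := u ≠ 0

/-- the dimension of the space `V` of functions. -/
noncomputable abbrev dmV {P : Type} (V : Submodule ℂ (P → ℂ)) : ℕ := Module.finrank ℂ V

/-- the rank of the restriction of the functions in `V` to `W`. -/
noncomputable abbrev rkV {P : Type} (V : Submodule ℂ (P → ℂ)) (W : Set P) : ℕ :=
  Module.finrank ℂ (V.map (LinearMap.funLeft ℂ ℂ (Subtype.val : W → P)))

/-- the set `R` contains a non empty open set. -/
abbrev DenseS {P : Type} [TopologicalSpace P] (R : Set P) : Prop :=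
  ∃ Z, IsClosed Z ∧ Z ≠ Set.univ ∧ ∀ y, y ∉ Z → y ∈ R

/-- the `bad i` are proper closed subsets. -/
abbrev BadS {P : Type} [TopologicalSpace P] (bad : ℕ → Set P) : Prop :=
  ∀ i, IsClosed (bad i) ∧ bad i ≠ Set.univ

/-- the orbit of `y` under the powers of `g`. -/
abbrev orbS {G P : Type} [Group G] [MulAction G P] (g : G) (y : P) : Set P :=
  Set.range fun m : ℤ => g ^ m • y

/-- the image of the point `y` under `g`. -/
abbrev mvS {G P : Type} [Group G] [MulAction G P] (g : G) (y : P) : P := g • y

/-- the zeros of `Sig` in `W`. -/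
abbrev LocusS {P : Type} (W : Set P) (Sig : Set (P → ℂ)) : Set P :=
  {y | y ∈ W ∧ ∀ v ∈ Sig, v y = 0}

/-- `u/t` is a quotient of elements of one of the spaces `V a`. -/
abbrev QuoS {P : Type} (V : ℕ → Submodule ℂ (P → ℂ)) (u t : P → ℂ) : Prop :=
  ∃ a : ℕ, ∃ u' ∈ V a, ∃ t' ∈ V a, t' ≠ 0 ∧ ∀ y, u y * t' y = u' y * t y

namespace Manifold

variable {n : ℕ} {Lam : Type} [AddCommGroup Lam] {q : Lam → Lam → ℤ} (M : Manifold n Lam q)

/-- `u` is a section of the line bundle of class `x`. -/
abbrev In (x : Lam) (u : M.P → ℂ) : Prop := InV (M.Sec x) u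

/-- all elements of `Sig` are sections of the line bundle of class `x`. -/
abbrev Ins (x : Lam) (Sig : Set (M.P → ℂ)) : Prop := ∀ ⦃u⦄, u ∈ Sig → u ∈ M.Sec x

/-- `u` is not the zero section. -/
abbrev Nz (u : M.P → ℂ) : Prop := NzF u

/-- the point `y` is in the set `S`. -/
abbrev On (S : Set M.P) (y : M.P) : Prop := y ∈ S

/-- the action of the automorphism `g` on the points. -/
abbrev mv (g : M.Aut) (y : M.P) : M.P := mvS g y

/-- the orbit of `y` under the powers of `g`. -/
abbrev orb (g : M.Aut) (y : M.P) : Set M.P := orbS g y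

/-- `u/t` is a quotient of sections of a multiple of `L`. -/
abbrev Quo (L : Lam) (u t : M.P → ℂ) : Prop := QuoS (fun a => M.Sec (a • L)) u t

/-- the set `R` contains a non empty open set. -/
abbrev Dense (R : Set M.P) : Prop := DenseS R

/-- the `bad i` are proper closed subsets. -/
abbrev Bad (bad : ℕ → Set M.P) : Prop := BadS bad

/-- `x` is in no `bad i`. -/
abbrev Off (bad : ℕ → Set M.P) (x : M.P) : Prop := ∀ i, x ∉ bad i

/-- `g` fixes the transcendental lattice, so the class of the symplectic form. -/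
abbrev Sympl (g : M.Aut) : Prop := ∀ v, (∀ x ∈ M.NS, q v x = 0) → M.pull g v = v

/-- all elements of `Sig` vanish at the point `y`. -/
abbrev Van (Sig : Set (M.P → ℂ)) (y : M.P) : Prop := ∀ v ∈ Sig, v y = 0

/-- the zeros of `Sig` in `W`. -/
abbrev Locus (W : Set M.P) (Sig : Set (M.P → ℂ)) : Set M.P := LocusS W Sig

/-- the rank of the restriction of the sections of the line bundle of class `x` to `W`. -/
noncomputable abbrev rk (x : Lam) (W : Set M.P) : ℕ := rkV (M.Sec x) W

/-- spaces of functions on the points. -/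
abbrev Sub : Type := Submodule ℂ (M.P → ℂ)

/-- the dimension of a space of functions. -/
noncomputable abbrev dm (V : M.Sub) : ℕ := dmV V

end Manifold

end Pool.Agent.H83.HN

namespace Pool.Agent.H13.HN

open Pool.Agent.H83.HN
open scoped BigOperators

/-- formal power series in `k` variables over the complex numbers. -/
abbrev Ser (k : ℕ) : Type := MvPowerSeries (Fin k) ℂ

/-- the coefficient of the monomial `tau`. -/
noncomputable abbrev cf {k : ℕ} (tau : Fin k →₀ ℕ) (f : Ser k) : ℂ := MvPowerSeries.coeff tau f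

/-- the quotient of two power series. -/
noncomputable abbrev squo {k : ℕ} (f g : Ser k) : Ser k := f * g⁻¹

/-- `f` vanishes to order more than `t`. -/
abbrev VanLe {k : ℕ} (t : ℕ) (f : Ser k) : Prop :=
  ∀ tau : Fin k →₀ ℕ, tau.degree ≤ t → MvPowerSeries.coeff tau f = 0

/-- `f` vanishes to order at least `T`. -/
abbrev VanLt {k : ℕ} (T : ℕ) (f : Ser k) : Prop :=
  ∀ tau : Fin k →₀ ℕ, tau.degree < T → MvPowerSeries.coeff tau f = 0

variable {n : ℕ} {Lam : Type} [AddCommGroup Lam] {q : Lam → Lam → ℤ}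

/-- THE FIBRES ARE COISOTROPIC: `X_j phi_i = 0`, where `phi_i = s i / s 0` and `X_j phi_i` (the
Poisson bracket of `phi_j` and `phi_i`) is the coefficient of `t_j` in the jet of `phi_i`. -/
def CoisAt {P Lam : Type} {k : ℕ} (J : P → Lam → (P → ℂ) → MvPowerSeries (Fin k) ℂ) (G : Lam)
    (s : Fin (k + 1) → P → ℂ) : Prop :=
  ∀ y, s 0 y ≠ 0 → ∀ i j : Fin k, cf (Finsupp.single j 1) (squo (J y G (s i.succ)) (J y G (s 0))) = 0

/-- THE JETS: `J G u` is the Taylor series of the section `u` of the line bundle of class `G` at a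
point `y`; the series are added, multiplied by constants and multiplied, and the constant term is the
value at `y`. -/
structure Jets (M : Manifold n Lam q) {k : ℕ} (J : Lam → (M.P → ℂ) → Ser k) (y : M.P) : Prop where
  add : ∀ G, ∀ u, M.In G u → ∀ t, M.In G t → J G (u + t) = J G u + J G t
  smul : ∀ G, ∀ c : ℂ, ∀ u, M.In G u → J G (c • u) = MvPowerSeries.C c * J G u
  mul : ∀ G H, ∀ u, M.In G u → ∀ t, M.In H t → J (G + H) (u * t) = J G u * J H t
  val : ∀ G, ∀ u, M.In G u → MvPowerSeries.constantCoeff (J G u) = u y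

/-- the jets of the pull back of the sections by `g`; `v` is the factor of the pull back of the
trivialisations. -/
def JetsPull (M : Manifold n Lam q) {k : ℕ} (J : M.P → Lam → (M.P → ℂ) → Ser k) (g : M.Aut)
    (y : M.P) : Prop :=
  ∀ G, ∀ v : M.P → ℂ, (∀ y', v y' ≠ 0) →
    (∀ u, M.In (M.pull g G) u ↔ ∃ t, M.In G t ∧ ∀ y', u y' = v y' * t (M.mv g y')) →
    ∃ U : Ser k, MvPowerSeries.constantCoeff U ≠ 0 ∧
      ∀ t, M.In G t → J y (M.pull g G) (fun y' => v y' * t (M.mv g y')) = U * J (M.mv g y) G t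

/-- THE IITAKA FIBRATION `f : Y --> B` of `L`: `k = dim B` is the Iitaka dimension of `L` (`k = 0`
if there are no sections; then `b = 0`, `B` is a point and `Fib y` is the whole of `Y`). -/
structure Iitaka (M : Manifold n Lam q) (L : Lam) where
  k : ℕ
  /-- KAWAMATA: if the Iitaka dimension equals the numerical dimension, which is `n` (Fujiki's
  relation), then `L` is semiample. -/
  kawamata : n ≤ k → L ∈ M.Semiample
  /-- a multiple `b L` whose sections define `f` (`b` is divisible, the quotients of the sections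
  generate the function field of `B`, which is algebraically closed in the one of `Y`); sections
  `s 0, .., s k` such that the functions `phi_i = s i / s 0`, `i = 1, .., k`, are algebraically
  independent. -/
  b : ℕ
  s : Fin (k + 1) → M.P → ℂ
  s_mem : ∀ i, M.In (b • L) (s i)
  s_zero : M.Nz (s 0)
  /-- `Fib y` is the closure of the fibre of `f` through `y`, for `y` in the open set `Reg`, invariant
  under `triv` (`f` and the fields `X_i` below are regular at `y`, the differentials of `phi_1, ..,
  phi_k` are independent at `y`, and `f y` lies in an open subset of `B` over which the fibre is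
  general, so irreducible). -/
  Fib : M.P → Set M.P
  Reg : Set M.P
  reg_open : M.Dense Reg
  reg_good : ∀ y, M.On Reg y → s 0 y ≠ 0
  fib_irr : ∀ y, M.On Reg y → IsIrreducible (Fib y)
  fib_closed : ∀ y, M.On Reg y → IsClosed (Fib y)
  fib_mem : ∀ y, M.On Reg y → M.On (Fib y) y
  /-- RECURRENCE. `phi = u/t` is a quotient of sections of `b L`. If `phi(g y) = lam phi(y)`, then
  `|lam| = 1`: otherwise the sets `|lam|^j <= |phi| < |lam|^(j+1)` would have the same positive
  volume for the invariant finite measure defined by the symplectic form. The triples `(u, t, lam)`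
  are the points of a variety over the algebraic numbers, on which `lam` is therefore locally
  constant, so `lam` is algebraic and `u, t` can be taken over a number field; the same argument
  for the conjugates and, with the measures on `Y(k_v)`, for the finite places shows that all
  conjugates have absolute value `1` and that `lam` is a unit. If `phi(g y) = phi(y) + c`, then
  `c = 0`. -/
  recur_mul : ∀ g : M.Aut, ∀ u, M.In (b • L) u → ∀ t, M.In (b • L) t → M.Nz u → M.Nz t → ∀ lam : ℂ,
    (∀ y, u (M.mv g y) * t y = lam * (u y * t (M.mv g y))) →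
    IsIntegral ℤ lam ∧ ∀ z ∈ (minpoly ℚ lam).aroots ℂ, ‖z‖ = 1
  recur_add : ∀ g : M.Aut, ∀ u, M.In (b • L) u → ∀ t, M.In (b • L) t → M.Nz t → ∀ c : ℂ,
    (∀ y, u (M.mv g y) * t y - u y * t (M.mv g y) = c * (t y * t (M.mv g y))) → c = 0
  /-- AMERIK-CAMPANA: the very general orbit of `g` is dense in the fibre of the map defined by the
  field of invariant rational functions; this fibre contains the one of `f`, if the invariant
  functions are quotients of sections of multiples of `L`. -/
  amerik_campana : ∀ g : M.Aut,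
    (∀ D ∈ M.NS, ∀ u, M.In D u → ∀ t, M.In D t → M.Nz t →
      (∀ y, u (M.mv g y) * t y = t (M.mv g y) * u y) → M.Quo L u t) →
    ∃ bad, M.Bad bad ∧ ∀ x, M.Off bad x → Fib x ⊆ closure (M.orb g x)
  /-- The automorphisms which fix `L` and the symplectic form (the transcendental lattice), and
  which act trivially on `B`. -/
  triv : Set M.Aut
  triv_iff : ∀ g, g ∈ triv ↔ M.pull g L = L ∧ M.Sympl g ∧
    ∀ u, M.In (b • L) u → ∀ t, M.In (b • L) t → ∀ y, u (M.mv g y) * t y = u y * t (M.mv g y)
  triv_good : ∀ g ∈ triv, ∀ y, s 0 y ≠ 0 → s 0 (M.mv g y) ≠ 0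
  triv_reg : ∀ g ∈ triv, ∀ y, M.On Reg y →
    M.On Reg (M.mv g y) ∧ ∀ y', M.On (Fib y) y' → M.On (Fib y) (M.mv g y')
  /-- THE HAMILTONIAN FIELDS `X_i` of `phi_i`: rational vector fields, `s_0^2 X_i` is regular;
  they are invariant under `triv`.  JETS: `J y G u` is the Taylor series in `t_1, .., t_k` along the
  curves `exp(t_1 X_1 + .. + t_k X_k) y` of the section `u` of `G` at the point `y`, `s 0 y ≠ 0`;
  the line bundles are trivialised on this formal scheme compatibly with tensor products and with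
  the vector chosen over `y`. -/
  J : M.P → Lam → (M.P → ℂ) → Ser k
  jets : ∀ y, s 0 y ≠ 0 → Jets M (J y) y
  jets_pull : ∀ g ∈ triv, ∀ y, s 0 y ≠ 0 → JetsPull M J g y
  /-- the Poisson bracket is alternating. -/
  bracket : ∀ y, s 0 y ≠ 0 → ∀ i j : Fin k,
    cf (Finsupp.single j 1) (squo (J y (b • L) (s i.succ)) (J y (b • L) (s 0))) =
      - cf (Finsupp.single i 1) (squo (J y (b • L) (s j.succ)) (J y (b • L) (s 0)))
  /-- `H^2(Y, C)` with the Beauville-Bogomolov form, the classes of the line bundles, of the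
  symplectic form and of its conjugate. -/
  H2 : Type
  qC : H2 → H2 → ℂ
  cl : Lam → H2
  sg : H2
  sgb : H2
  qC_cl : ∀ x y, qC (cl x) (cl y) = (q x y : ℂ)
  qC_sg : ∀ x ∈ M.NS, qC (cl x) sg = 0 ∧ qC sg (cl x) = 0 ∧ qC (cl x) sgb = 0 ∧ qC sgb (cl x) = 0
  /-- the integral of the product of `2 n` classes, and FUJIKI's relation (polarised). -/
  int : (Fin (2 * n) → H2) → ℂ
  fujiki : ∃ c : ℂ, ∀ v, int v = c * Pool.Agent.H79.HN.pairSum qC v
  /-- COISOTROPIC FIBRES (VOISIN). On a resolution `b L = M + F`, `M = f^* O(1)` the moving part,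
  `F` effective; so `M^k (sigma sigma-bar)^(n-k+1) a^(k-2) <= b^k L^k (sigma sigma-bar)^(n-k+1)
  a^(k-2)` (the classes are nef, the powers of `sigma sigma-bar` are represented by weakly positive
  forms), and `M^k` is a multiple of the class of the general fibre `W`. If the number on the right
  is zero, then `sigma^(n-k+1)` vanishes on `W`, which is of codimension `k`; this means that `W`
  is coisotropic, so the fields `X_j` are tangent to `W`. -/
  voisin : 2 ≤ k → ∀ a ∈ M.Ample,
    int (Pool.Agent.H79.HN.mix n k (cl L) (cl a) sg sgb) = 0 → CoisAt J (b • L) s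
  /-- DIFFERENTIAL OPERATORS. If the fibres are coisotropic, the fields `X_i` commute, are tangent
  to the fibres and independent at the points of `Reg`. For `n_1` in `Sec N_1`, `N_1` very ample, the
  vector field `s_0^2 n_1 X_i` with values in `N_0 = 2 b L + N_1` is the symbol of a differential
  operator `G → G + N_0` of order one, for every line bundle `G` (the obstruction is in
  `H^1(N_0) = 0`).
  `Sig` consists of the results of at most `t` such operators, multiplied by sections
  `s_0^2 n_1`. -/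
  N0 : Lam
  N0_mem : N0 ∈ M.Nef
  equations : CoisAt J (b • L) s → ∀ G, ∀ u, M.In G u → ∀ t : ℕ,
    ∃ Sig, M.Ins (G + t • N0) Sig ∧
      (∀ y, s 0 y ≠ 0 → (M.Van Sig y ↔ VanLe t (J y G u))) ∧
      ∀ y, s 0 y ≠ 0 → ∀ T : ℕ, VanLe (t + T) (J y G u) →
        ∀ v ∈ Sig, VanLe T (J y (G + t • N0) v)
  /-- BEZOUT WITH MULTIPLICITIES (FULTON). `V` runs through components (of dimension `D`) of the
  locus in a fibre `W` where the sections `Sig` of the generated class `B` vanish; all of them
  vanish along `V` to order `T` at least in the directions of the fields `X_i`, of which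
  `c >= k - D` are independent modulo the tangent space of `V`: the local ring of the locus at `V`
  has length at least `T^c / c!`, so (general members of the linear system have an intersection
  multiplicity at least this length) `SUM_V (T^c / c!) B^D.V <= B^(2 n - k).W`. Here
  `B^D.V >= T^D`, since `B - T A` is nef, and
  `B^(2 n - k).W <= B^(2 n - k).(b L)^k = const q(B, B)^(n - k) q(B, L)^k` (FUJIKI). -/
  bezout : CoisAt J (b • L) s → ∀ A ∈ M.VeryAmple, ∃ C : ℝ, ∀ x, M.On Reg x → ∀ T : ℕ, 0 < T → ∀ B,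
    B - (T + (2 * n + 1)) • A ∈ M.Nef → ∀ Sig, M.Ins B Sig → ∀ S : Finset (Set M.P),
    (∀ V ∈ S, IsComp (M.Locus (Fib x) Sig) V ∧ (V ∩ Reg).Nonempty ∧
      ∀ y, M.On V y → s 0 y ≠ 0 → ∀ v ∈ Sig, VanLt T (J y B v)) →
    (S.card : ℝ) * (T : ℝ) ^ k ≤ C * (q B B : ℝ) ^ (n - k) * (q B L : ℝ) ^ k
  /-- ORDER OF VANISHING ALONG A VERY GENERAL FIBRE `W = Fib x`. `V j` is the space of the sections
  of `E = a A + b' L` which vanish to order `j` along `W`. The restrictions of the sections of `E`
  to the fibres are a subbundle of `f_* E` near the very general point `f(x)`, so the leading term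
  of an element of `V j` is a homogeneous polynomial of degree `j` in `k` variables with
  coefficients in the space of restrictions to `W`. If `u ≠ 0` vanishes to order `j`, let `S` be
  the inverse image of a general curve through `f(x)`: `j W <= div(u)` on `S`, and the intersection
  with `A^(2n-k)` shows `j <= C (a + b')`. -/
  order : ∀ A ∈ M.VeryAmple, ∃ (C : ℕ) (bad : ℕ → Set M.P), M.Bad bad ∧
    ∀ x, M.On Reg x → M.Off bad x → ∀ a b' : ℕ,
    ∃ V : ℕ → M.Sub, V 0 = M.Sec (a • A + b' • L) ∧ V (C * (a + b') + 1) = ⊥ ∧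
      ∀ j, M.dm (V j) ≤ M.dm (V (j + 1)) + Nat.multichoose k j * M.rk (a • A + b' • L) (Fib x)

variable {M : Manifold n Lam q} {L : Lam}

theorem Iitaka.J_add (I : Iitaka M L) : ∀ y, I.s 0 y ≠ 0 → ∀ G, ∀ u ∈ M.Sec G, ∀ t ∈ M.Sec G,
    I.J y G (u + t) = I.J y G u + I.J y G t := fun y hy => (I.jets y hy).add

theorem Iitaka.J_smul (I : Iitaka M L) : ∀ y, I.s 0 y ≠ 0 → ∀ G, ∀ c : ℂ, ∀ u ∈ M.Sec G,
    I.J y G (c • u) = MvPowerSeries.C c * I.J y G u := fun y hy => (I.jets y hy).smul

theorem Iitaka.J_mul (I : Iitaka M L) : ∀ y, I.s 0 y ≠ 0 → ∀ G H, ∀ u ∈ M.Sec G, ∀ t ∈ M.Sec H,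
    I.J y (G + H) (u * t) = I.J y G u * I.J y H t := fun y hy => (I.jets y hy).mul

theorem Iitaka.J_val (I : Iitaka M L) : ∀ y, I.s 0 y ≠ 0 → ∀ G, ∀ u ∈ M.Sec G,
    MvPowerSeries.constantCoeff (I.J y G u) = u y := fun y hy => (I.jets y hy).val

theorem Iitaka.J_pull (I : Iitaka M L) : ∀ g ∈ I.triv, ∀ y, I.s 0 y ≠ 0 → ∀ G, ∀ v : M.P → ℂ,
    (∀ y', v y' ≠ 0) →
    (∀ u, u ∈ M.Sec (M.pull g G) ↔ ∃ t ∈ M.Sec G, ∀ y', u y' = v y' * t (g • y')) →
    ∃ U : MvPowerSeries (Fin I.k) ℂ, MvPowerSeries.constantCoeff U ≠ 0 ∧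
      ∀ t ∈ M.Sec G, I.J y (M.pull g G) (fun y' => v y' * t (g • y')) = U * I.J (g • y) G t :=
  fun g hg y hy => I.jets_pull g hg y hy

/-- the fibres are coisotropic -/
def Iitaka.Cois (I : Iitaka M L) : Prop := CoisAt I.J (I.b • L) I.s

/-- **The fibres of the Iitaka fibration are coisotropic.** -/
theorem Iitaka.cois (I : Iitaka M L) (hL : L ∈ M.NS) (hLL : q L L = 0) (hk : I.k ≤ n) :
    I.Cois := by
  by_cases h2 : 2 ≤ I.k
  · obtain ⟨a, ha⟩ := M.exists_ample
    obtain ⟨c, hc⟩ := I.fujiki
    refine I.voisin h2 a ha ?_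
    obtain ⟨h3, h4, h5, h6⟩ := I.qC_sg L hL
    rw [hc, Pool.Agent.H79.HN.mix_zero h2 hk I.qC (I.cl L) (I.cl a) I.sg I.sgb
      (by rw [I.qC_cl, hLL, Int.cast_zero]) h3 h4 h5 h6, mul_zero]
  · intro y hy i j
    have hij : i = j := by
      ext
      have := i.2
      have := j.2
      omega
    subst hij
    have h3 := I.bracket y hy i i
    have h4 : (2 : ℂ) * MvPowerSeries.coeff (Finsupp.single i 1)
        (I.J y (I.b • L) (I.s i.succ) * (I.J y (I.b • L) (I.s 0))⁻¹) = 0 := by
      linear_combination h3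
    exact (mul_eq_zero.1 h4).resolve_left two_ne_zero

theorem sum_multichoose (k N : ℕ) :
    ∑ j ∈ Finset.range (N + 1), Nat.multichoose k j ≤ (N + 1) ^ k := by
  induction k with
  | zero =>
    rw [pow_zero, Finset.sum_range_succ', Finset.sum_eq_zero]
    · simp
    · intro j _
      simp
  | succ k ih =>
    have h1 : ∀ j, Nat.multichoose (k + 1) j = ∑ i ∈ Finset.range (j + 1), Nat.multichoose k i := by
      intro j
      induction j with
      | zero => simp
      | succ j ihj =>
        rw [Finset.sum_range_succ, ← ihj, Nat.multichoose_succ_succ, add_comm]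
    calc ∑ j ∈ Finset.range (N + 1), Nat.multichoose (k + 1) j
        ≤ ∑ _j ∈ Finset.range (N + 1), (N + 1) ^ k := by
          refine Finset.sum_le_sum fun j hj => ?_
          rw [h1]
          refine le_trans (Finset.sum_le_sum_of_subset ?_) ih
          intro i hi
          rw [Finset.mem_range] at hi hj ⊢
          omega
      _ = (N + 1) ^ (k + 1) := by
          rw [Finset.sum_const, Finset.card_range, smul_eq_mul, pow_succ, mul_comm]

/-- **Rank of the restriction to a very general fibre**: `h^0(a A + b' L)` is at most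
`C (1 + a + b')^k` times this rank. -/
theorem Iitaka.rank (I : Iitaka M L) : ∀ A ∈ M.VeryAmple, ∃ C : ℝ, ∃ bad : ℕ → Set M.P,
    (∀ i, IsClosed (bad i) ∧ bad i ≠ Set.univ) ∧ ∀ x ∈ I.Reg, (∀ i, x ∉ bad i) → ∀ a b' : ℕ,
    (Module.finrank ℂ (M.Sec (a • A + b' • L)) : ℝ) ≤ C * (1 + a + b') ^ I.k *
      Module.finrank ℂ ((M.Sec (a • A + b' • L)).map
        (LinearMap.funLeft ℂ ℂ (Subtype.val : I.Fib x → M.P))) := by
  intro A hA
  obtain ⟨C, bad, hbad, h⟩ := I.order A hA
  refine ⟨((C : ℝ) + 1) ^ I.k, bad, hbad, fun x hx hxb a b' => ?_⟩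
  obtain ⟨V, h0, h1, h2'⟩ := h x hx hxb a b'
  have h2 : ∀ j, Module.finrank ℂ (V j) ≤ Module.finrank ℂ (V (j + 1)) + Nat.multichoose I.k j *
      Module.finrank ℂ ((M.Sec (a • A + b' • L)).map
        (LinearMap.funLeft ℂ ℂ (Subtype.val : I.Fib x → M.P))) := h2'
  obtain ⟨N, hN⟩ : ∃ N, N = Module.finrank ℂ ((M.Sec (a • A + b' • L)).map
        (LinearMap.funLeft ℂ ℂ (Subtype.val : I.Fib x → M.P))) := ⟨_, rfl⟩
  rw [← hN] at h2 ⊢
  have h3 : ∀ m, Module.finrank ℂ (V 0) ≤ Module.finrank ℂ (V m) +
      (∑ j ∈ Finset.range m, Nat.multichoose I.k j) * N := by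
    intro m
    induction m with
    | zero => simp
    | succ m ih =>
      rw [Finset.sum_range_succ, add_mul]
      have := h2 m
      omega
  have h4 := h3 (C * (a + b') + 1)
  rw [h1, finrank_bot, zero_add, h0] at h4
  have h5 := sum_multichoose I.k (C * (a + b'))
  have h6 : Module.finrank ℂ (M.Sec (a • A + b' • L)) ≤ (C * (a + b') + 1) ^ I.k * N :=
    h4.trans (Nat.mul_le_mul_right _ h5)
  have h7 : (Module.finrank ℂ (M.Sec (a • A + b' • L)) : ℝ) ≤
      ((C : ℝ) * (a + b') + 1) ^ I.k * N := by exact_mod_cast h6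
  refine h7.trans ?_
  rw [← mul_pow]
  refine mul_le_mul_of_nonneg_right (pow_le_pow_left₀ (by positivity) ?_ _) (Nat.cast_nonneg _)
  have ha : (0 : ℝ) ≤ a := Nat.cast_nonneg _
  have hb : (0 : ℝ) ≤ b' := Nat.cast_nonneg _
  have hC : (0 : ℝ) ≤ C := Nat.cast_nonneg _
  nlinarith

end Pool.Agent.H13.HN
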